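import Pool.Agent.Run7.h851.T.Iface

/-!
# T-MIXB: the three-site classes (port of `Pool/Agent/Dim7/MixB.lean`)
-/

open Polynomial Pool.Agent.H337R2 Pool.Agent.Run7.h851.T

namespace Pool.Agent.Run7.h186.T.Mix

noncomputable section

/-- the contribution of the pole `-k` to the form with values `v i` and harmonic part `u` -/
def gk (n : ℕ) (u : ℚ) (v : ℕ → ℚ) (E : ℚ[X]) (k : ℕ) : ℚ :=
  ∑ i ∈ Finset.Icc 1 64, pa (sM n) mM (PM n * E) k i * (v i - u * hs i k)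

lemma gk_add (n : ℕ) (u : ℚ) (v : ℕ → ℚ) (E E' : ℚ[X]) (k : ℕ) :
    gk n u v (E + E') k = gk n u v E k + gk n u v E' k := by
  unfold gk
  rw [← Finset.sum_add_distrib]
  refine Finset.sum_congr rfl fun i _ => ?_
  rw [mul_add, pa_add]
  ring

lemma gk_C_mul (n : ℕ) (u : ℚ) (v : ℕ → ℚ) (a : ℚ) (E : ℚ[X]) (k : ℕ) :
    gk n u v (C a * E) k = a * gk n u v E k := by
  unfold gk
  rw [Finset.mul_sum]
  refine Finset.sum_congr rfl fun i _ => ?_
  rw [mul_left_comm, pa_C_mul]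
  ring

lemma gk_zero (n : ℕ) (u : ℚ) (v : ℕ → ℚ) (k : ℕ) : gk n u v 0 k = 0 := by
  have h := gk_C_mul n u v 0 0 k
  rwa [map_zero, zero_mul, zero_mul] at h

lemma gk_sum (n : ℕ) (u : ℚ) (v : ℕ → ℚ) {ι : Type*} (s : Finset ι) (f : ι → ℚ[X]) (k : ℕ) :
    gk n u v (∑ l ∈ s, f l) k = ∑ l ∈ s, gk n u v (f l) k := by
  classical
  induction s using Finset.induction_on with
  | empty => rw [Finset.sum_empty, Finset.sum_empty, gk_zero]
  | insert a s ha ih => rw [Finset.sum_insert ha, Finset.sum_insert ha, gk_add, ih]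

/-- the sum of the values at the sites of the three-site class of `c` and of its reflection -/
def tri (n p c : ℕ) (F : ℕ → ℚ) : ℚ :=
  (F (c - p) + F c + F (c + p)) +
    if c < 2 * n then F (4 * n - c + p) + F (4 * n - c) + F (4 * n - c - p) else 0

lemma tri_sum (n p c : ℕ) {ι : Type*} (s : Finset ι) (F : ι → ℕ → ℚ) :
    tri n p c (fun k => ∑ l ∈ s, F l k) = ∑ l ∈ s, tri n p c (F l) := by
  unfold tri
  split_ifs
  · simp only [Finset.sum_add_distrib]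
  · simp only [Finset.sum_add_distrib, Finset.sum_const_zero]

lemma tri_mul (n p c : ℕ) (a b : ℚ) (F : ℕ → ℚ) :
    tri n p c (fun k => a * F k * b) = a * tri n p c F * b := by
  unfold tri
  split_ifs <;> ring

/-- the two conditions for `k` to be in the class of `c` or of its reflection -/
def inC (n p c k : ℕ) : Prop := (p : ℤ) ∣ -(k : ℤ) + c ∨ (p : ℤ) ∣ -(k : ℤ) + ((4 * n : ℕ) - c)

section padic

variable {p : ℕ} [hp : Fact p.Prime]

lemma tri_bound {n c : ℕ} (hc : c ∈ Amid n p) {F : ℕ → ℚ} {W : ℚ} (hW : 0 ≤ W)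
    (h : ∀ k ∈ sM n, inC n p c k → padicNorm p (F k) ≤ W) : padicNorm p (tri n p c F) ≤ W := by
  unfold Amid at hc
  rw [Finset.mem_filter, Finset.mem_Icc] at hc
  obtain ⟨⟨h1, h2⟩, h3⟩ := hc
  have a1 : padicNorm p (F (c - p)) ≤ W := h _ (Finset.mem_Icc.2 (by omega)) (Or.inl ⟨1, by
    rw [Nat.cast_sub (by omega)]; ring⟩)
  have a2 : padicNorm p (F c) ≤ W := h _ (Finset.mem_Icc.2 (by omega)) (Or.inl ⟨0, by ring⟩)
  have a3 : padicNorm p (F (c + p)) ≤ W := h _ (Finset.mem_Icc.2 (by omega)) (Or.inl ⟨-1, by push_cast; ring⟩)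
  unfold tri
  have b1 := (padicNorm.nonarchimedean (p := p) (q := F (c - p) + F c) (r := F (c + p))).trans
    (max_le ((padicNorm.nonarchimedean (p := p) (q := F (c - p)) (r := F c)).trans (max_le a1 a2)) a3)
  refine (padicNorm.nonarchimedean).trans (max_le b1 ?_)
  split_ifs
  · have a4 : padicNorm p (F (4 * n - c + p)) ≤ W := h _ (Finset.mem_Icc.2 (by omega)) (Or.inr ⟨-1, by
      rw [Nat.cast_add, Nat.cast_sub (by omega)]; ring⟩)
    have a5 : padicNorm p (F (4 * n - c)) ≤ W := h _ (Finset.mem_Icc.2 (by omega)) (Or.inr ⟨0, by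
      rw [Nat.cast_sub (by omega)]; ring⟩)
    have a6 : padicNorm p (F (4 * n - c - p)) ≤ W := h _ (Finset.mem_Icc.2 (by omega)) (Or.inr ⟨1, by
      rw [Nat.cast_sub (by omega), Nat.cast_sub (by omega)]; ring⟩)
    exact (padicNorm.nonarchimedean).trans (max_le ((padicNorm.nonarchimedean).trans (max_le a4 a5)) a6)
  · rw [padicNorm.zero]; exact hW

omit hp in
/-- the exponent is the same at all the sites -/
lemma eM_inC (hD2 : St_D2_eM_kap) {n c k : ℕ} (hn : 1 ≤ n) (hp0 : 0 < p) (hc : c ≤ 4 * n) (hk : k ≤ 4 * n)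
    (h : inC n p c k) : eM n p k = eM n p c := by
  rw [← hD2 hn hp0 hk, ← hD2 hn hp0 hc]
  congr 1
  unfold kap
  have hkz : ((4 * n - k : ℕ) : ℤ) = (4 * n : ℕ) - k := by rw [Nat.cast_sub hk]
  have hcz : ((4 * n - c : ℕ) : ℤ) = (4 * n : ℕ) - c := by rw [Nat.cast_sub hc]
  rcases h with h | h
  · have e1 : k % p = c % p := by
      have : (k : ℤ) ≡ c [ZMOD p] := (Int.modEq_iff_dvd).2 (by rwa [neg_add_eq_sub] at h)
      exact (Int.natCast_modEq_iff.1 this)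
    have e2 : (4 * n - k) % p = (4 * n - c) % p := by
      have : ((4 * n - k : ℕ) : ℤ) ≡ ((4 * n - c : ℕ) : ℤ) [ZMOD p] := by
        rw [hkz, hcz]
        refine (Int.modEq_iff_dvd).2 ?_
        have h2 : ((4 * n : ℕ) : ℤ) - c - ((4 * n : ℕ) - k) = -(-(k : ℤ) + c) := by ring
        rw [h2]
        exact (dvd_neg).2 h
      exact (Int.natCast_modEq_iff.1 this)
    rw [e1, e2]
  · have e1 : k % p = (4 * n - c) % p := by
      have : (k : ℤ) ≡ ((4 * n - c : ℕ) : ℤ) [ZMOD p] := by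
        rw [hcz]
        exact (Int.modEq_iff_dvd).2 (by rwa [neg_add_eq_sub] at h)
      exact (Int.natCast_modEq_iff.1 this)
    have e2 : (4 * n - k) % p = c % p := by
      have : ((4 * n - k : ℕ) : ℤ) ≡ (c : ℤ) [ZMOD p] := by
        rw [hkz]
        refine (Int.modEq_iff_dvd).2 ?_
        have h2 : (c : ℤ) - ((4 * n : ℕ) - k) = -(-(k : ℤ) + ((4 * n : ℕ) - c)) := by ring
        rw [h2]
        exact (dvd_neg).2 h
      exact (Int.natCast_modEq_iff.1 this)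
    rw [e1, e2, min_comm]

omit hp in
lemma XN_eq (n r : ℕ) : XN n r = X - C ((((2 * n : ℕ) : ℚ) - r) ^ 2) := by
  unfold XN; rw [map_pow]

omit hp in
lemma XN_comp (n r : ℕ) : (XN n r).comp (xM n) =
    (X + C (r : ℚ)) * (X + C (((4 * n : ℕ) : ℚ) - (r : ℚ))) := by
  unfold XN xM
  rw [Polynomial.sub_comp, Polynomial.X_comp, Polynomial.pow_comp, Polynomial.C_comp]
  push_cast
  simp only [map_sub, map_mul, map_natCast, map_ofNat]
  ring

lemma lin1 (ρ : ℚ) (hρ : 1 ≤ ρ) (z : ℤ) (a : ℚ) (ha : a = (z : ℚ)) :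
    PB p ρ 1 (PowerSeries.X + PowerSeries.C a) := by
  refine PB.linX (by linarith) zero_le_one ?_ (by linarith)
  rw [ha]
  exact padicNorm.of_int z

lemma lin_dvd (z : ℤ) (hz : (p : ℤ) ∣ z) (a : ℚ) (ha : a = (z : ℚ)) :
    PB p (p : ℚ) (p : ℚ)⁻¹ (PowerSeries.X + PowerSeries.C a) := by
  have hp0 : (0 : ℚ) < p := by exact_mod_cast hp.1.pos
  refine PB.linX hp0.le (inv_nonneg.2 hp0.le) ?_ (by rw [inv_mul_cancel₀ hp0.ne'])
  rw [ha]
  have := (padicNorm.dvd_iff_norm_le (p := p) (n := 1) (z := z)).1 (by simpa using hz)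
  simpa using this

lemma XN_PB {n k c : ℕ} (h : inC n p c k) :
    PB p (p : ℚ) (p : ℚ)⁻¹ (TS (-(k : ℚ)) ((XN n c).comp (xM n))) := by
  have hp0 : (0 : ℚ) < p := by exact_mod_cast hp.1.pos
  have hp1 : (1 : ℚ) ≤ p := by exact_mod_cast hp.1.one_le
  rw [XN_comp, map_mul, TS_lin, TS_lin]
  have e1 : (-(k : ℚ) + (c : ℚ)) = ((-(k : ℤ) + c : ℤ) : ℚ) := by push_cast; ring
  have e2 : (-(k : ℚ) + (((4 * n : ℕ) : ℚ) - (c : ℚ))) = ((-(k : ℤ) + ((4 * n : ℕ) - c) : ℤ) : ℚ) := by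
    push_cast; ring
  rcases h with h | h
  · have h1 := lin_dvd (p := p) _ h _ e1
    have h2 := lin1 (p := p) (p : ℚ) hp1 _ _ e2
    have := PB.mul hp0.le (inv_nonneg.2 hp0.le) zero_le_one h1 h2
    simpa using this
  · have h1 := lin1 (p := p) (p : ℚ) hp1 _ _ e1
    have h2 := lin_dvd (p := p) _ h _ e2
    have := PB.mul hp0.le zero_le_one (inv_nonneg.2 hp0.le) h1 h2
    simpa using this

/-- the node polynomial of the class in the variable `t` -/
def Dc (n c : ℕ) : ℚ[X] := (XN n c).comp (xM n)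

lemma Dc_PB {n k c : ℕ} (h : inC n p c k) (L : ℕ) :
    PB p (p : ℚ) ((p : ℚ)⁻¹ ^ L) (TS (-(k : ℚ)) (Dc n c ^ L)) := by
  have hp0 : (0 : ℚ) < p := by exact_mod_cast hp.1.pos
  rw [map_pow]
  exact PB.pow hp0.le (inv_nonneg.2 hp0.le) (XN_PB h) L

lemma gk_bound_A (hC1 : St_C1_pa) {n : ℕ} (hn : 1 ≤ n) (hp2 : 4 * n < p ^ 2) {u : ℚ} {v : ℕ → ℚ}
    (hu : padicNorm p u ≤ 1) (hv : ∀ i, padicNorm p (v i) ≤ 1) {c k : ℕ} (hk : k ∈ sM n) (h : inC n p c k)
    (L : ℕ) : padicNorm p (gk n u v (Dc n c ^ L) k) ≤ (p : ℚ) ^ (eM n p k - L : ℤ) := by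
  have hp0 : (0 : ℚ) < p := by exact_mod_cast hp.1.pos
  have hp1 : (1 : ℚ) ≤ p := by exact_mod_cast hp.1.one_le
  have hkI := Finset.mem_Icc.1 hk
  unfold gk
  apply padicNorm.sum_le' _ (by positivity)
  intro i _
  rw [padicNorm.mul]
  have h1 := hC1 hn hp2 (Dc n c ^ L) hk _ (by positivity) (Dc_PB h L) i
  have h2 : padicNorm p (v i - u * hs i k) ≤ (p : ℚ) ^ (i : ℤ) := by
    have e0 : (1 : ℚ) ≤ (p : ℚ) ^ (i : ℤ) := by
      rw [zpow_natCast]; exact one_le_pow₀ hp1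
    refine (padicNorm.sub).trans (max_le ((hv i).trans e0) ?_)
    rw [padicNorm.mul]
    have h4 := hs_norm_med (p := p) i k (by omega)
    rw [zpow_natCast]
    calc _ ≤ 1 * (p : ℚ) ^ i := mul_le_mul hu h4 (padicNorm.nonneg _) zero_le_one
      _ = _ := one_mul _
  refine (mul_le_mul h1 h2 (padicNorm.nonneg _) (by positivity)).trans (le_of_eq ?_)
  rw [inv_pow, ← zpow_natCast (p : ℚ) L, ← zpow_neg, ← zpow_add₀ hp0.ne', ← zpow_add₀ hp0.ne']
  congr 1
  ring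

lemma gk_bound_B (hC1 : St_C1_pa) {n : ℕ} (hn : 1 ≤ n) (hp2 : 4 * n < p ^ 2) {v : ℕ → ℚ}
    (hv : ∀ i, padicNorm p (v i) ≤ 1) {i0 : ℕ} (hv3 : ∀ i < i0, v i = 0) {c k : ℕ} (hk : k ∈ sM n)
    (h : inC n p c k) (L : ℕ) : padicNorm p (gk n 0 v (Dc n c ^ L) k) ≤ (p : ℚ) ^ (eM n p k - i0 - L : ℤ) := by
  have hp0 : (0 : ℚ) < p := by exact_mod_cast hp.1.pos
  have hp1 : (1 : ℚ) ≤ p := by exact_mod_cast hp.1.one_le
  unfold gk
  apply padicNorm.sum_le' _ (by positivity)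
  intro i _
  rw [zero_mul, sub_zero, padicNorm.mul]
  by_cases hi : i < i0
  · rw [hv3 i hi, padicNorm.zero, mul_zero]; positivity
  have h1 := hC1 hn hp2 (Dc n c ^ L) hk _ (by positivity) (Dc_PB h L) i
  have h3 : padicNorm p (pa (sM n) mM (PM n * Dc n c ^ L) k i) ≤ (p : ℚ) ^ (eM n p k - i0 - L : ℤ) := by
    refine h1.trans ?_
    rw [inv_pow, ← zpow_natCast (p : ℚ) L, ← zpow_neg, ← zpow_add₀ hp0.ne']
    apply zpow_le_zpow_right₀ hp1
    omega
  refine (mul_le_mul h3 (hv i) (padicNorm.nonneg _) (by positivity)).trans (le_of_eq (mul_one _))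

/-- **three-site classes, form A** -/
theorem tri_bound_A (hC1 : St_C1_pa) (hD2 : St_D2_eM_kap) {n : ℕ} (hn : 1 ≤ n) (hp2 : 4 * n < p ^ 2) {u : ℚ}
    {v : ℕ → ℚ} (hu : padicNorm p u ≤ 1) (hv : ∀ i, padicNorm p (v i) ≤ 1) {c : ℕ} (hc : c ∈ Amid n p) (L : ℕ) :
    padicNorm p (tri n p c (gk n u v (Dc n c ^ L))) ≤ (p : ℚ) ^ (eM n p c - L : ℤ) := by
  have hp0 : (0 : ℚ) < p := by exact_mod_cast hp.1.pos
  apply tri_bound hc (by positivity)
  intro k hk h
  have hk' := Finset.mem_Icc.1 hk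
  have hc' : c ≤ 4 * n := by
    unfold Amid at hc
    rw [Finset.mem_filter, Finset.mem_Icc] at hc
    omega
  rw [← eM_inC hD2 hn hp.out.pos hc' (by omega) h]
  exact gk_bound_A hC1 hn hp2 hu hv hk h L

/-- **three-site classes, forms B and C** (`i0 = 3, 5`) -/
theorem tri_bound_B (hC1 : St_C1_pa) (hD2 : St_D2_eM_kap) {n : ℕ} (hn : 1 ≤ n) (hp2 : 4 * n < p ^ 2)
    {v : ℕ → ℚ} (hv : ∀ i, padicNorm p (v i) ≤ 1) {i0 : ℕ} (hv3 : ∀ i < i0, v i = 0) {c : ℕ} (hc : c ∈ Amid n p)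
    (L : ℕ) : padicNorm p (tri n p c (gk n 0 v (Dc n c ^ L))) ≤ (p : ℚ) ^ (eM n p c - i0 - L : ℤ) := by
  have hp0 : (0 : ℚ) < p := by exact_mod_cast hp.1.pos
  apply tri_bound hc (by positivity)
  intro k hk h
  have hk' := Finset.mem_Icc.1 hk
  have hc' : c ≤ 4 * n := by
    unfold Amid at hc
    rw [Finset.mem_filter, Finset.mem_Icc] at hc
    omega
  rw [← eM_inC hD2 hn hp.out.pos hc' (by omega) h]
  exact gk_bound_B hC1 hn hp2 hv hv3 hk h L

/-- coefficients of the expansion of `x^a` in powers of `x - x_c` -/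
def Uc (n c a l : ℕ) : ℚ := (a.choose l : ℚ) * ((((2 * n : ℕ) : ℚ) - c) ^ 2) ^ (a - l)

lemma Uc_norm (n c a l : ℕ) : padicNorm p (Uc n c a l) ≤ 1 := by
  have h := padicNorm.of_int (p := p) ((a.choose l : ℤ) * ((((2 * n : ℕ) : ℤ) - c) ^ 2) ^ (a - l))
  unfold Uc
  push_cast at h ⊢
  exact h

omit hp in
lemma xM_expand (n c : ℕ) {a N : ℕ} (h : a < N) :
    xM n ^ a = ∑ l ∈ Finset.range N, C (Uc n c a l) * Dc n c ^ l := by
  have h1 : xM n = Dc n c + C ((((2 * n : ℕ) : ℚ) - c) ^ 2) := by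
    unfold Dc
    rw [XN_eq, Polynomial.sub_comp, Polynomial.X_comp, Polynomial.C_comp]
    ring
  conv_lhs => rw [h1, add_pow]
  rw [Finset.sum_subset (Finset.range_subset_range.2 (show a + 1 ≤ N by omega))]
  · refine Finset.sum_congr rfl fun l _ => ?_
    unfold Uc
    simp only [map_mul, map_pow, map_natCast]
    ring
  · intro l _ hl
    rw [Finset.mem_range] at hl
    rw [Nat.choose_eq_zero_of_lt (by omega), Nat.cast_zero, mul_zero]

omit hp in
/-- **expansion of the contribution of a three-site class** -/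
theorem tri_expand (n p c : ℕ) (u : ℚ) (v : ℕ → ℚ) {a b N : ℕ} (ha : a < N) (hb : b < N) :
    tri n p c (gk n u v (xM n ^ a * xM n ^ b)) = ∑ l ∈ Finset.range N, ∑ l' ∈ Finset.range N,
      Uc n c a l * tri n p c (gk n u v (Dc n c ^ (l + l'))) * Uc n c b l' := by
  have h1 : gk n u v (xM n ^ a * xM n ^ b) = fun k => ∑ l ∈ Finset.range N, ∑ l' ∈ Finset.range N,
      Uc n c a l * gk n u v (Dc n c ^ (l + l')) k * Uc n c b l' := by
    funext k
    rw [xM_expand n c ha, xM_expand n c hb, Finset.sum_mul_sum, gk_sum]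
    refine Finset.sum_congr rfl fun l _ => ?_
    rw [gk_sum]
    refine Finset.sum_congr rfl fun l' _ => ?_
    have e : C (Uc n c a l) * Dc n c ^ l * (C (Uc n c b l') * Dc n c ^ l') =
        C (Uc n c a l) * (C (Uc n c b l') * Dc n c ^ (l + l')) := by
      rw [pow_add]; ring
    rw [e, gk_C_mul, gk_C_mul]
    ring
  rw [h1, tri_sum]
  refine Finset.sum_congr rfl fun l _ => ?_
  rw [tri_sum]
  exact Finset.sum_congr rfl fun l' _ => tri_mul _ _ _ _ _ _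

end padic

end

end Pool.Agent.Run7.h186.T.Mix
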